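import Mathlib
import Pool.Agent.Lib.MP_cd85a3_co.Value

/-!
# The attacking cop number of every multidimensional grid
-/

set_option autoImplicit false

namespace Pool.Agent.Results.MP_cd85a3_co.AttackingCopNumberGrids

open Pool.Agent.Lib.MP_cd85a3_co

/-- For `n ≥ 1` and `m_1, …, m_n ≥ 2`, the attacking cop number of the grid
`P_{m_1} □ ⋯ □ P_{m_n}` is `⌈n/2⌉ + 1`, except that it is `1` for a path on at most three
vertices and `2` for the 3-dimensional cube. -/
theorem result (n : ℕ) (hn : 1 ≤ n) (m : Fin n → ℕ) (hm : ∀ i, 2 ≤ m i) :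
    attackingCopNumber (grid m) =
      if n = 1 ∧ ∀ i, m i ≤ 3 then 1
      else if n = 3 ∧ ∀ i, m i = 2 then 2
      else (n + 1) / 2 + 1 :=
  value hn hm

end Pool.Agent.Results.MP_cd85a3_co.AttackingCopNumberGrids
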